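import Pool.Agent.H6.Abund.Defs

set_option autoImplicit false

/-! # Farkas' lemma over a finitely generated free abelian group (job AB-1, helper33) -/

namespace Pool.Agent.H6.Abund

namespace FarkasAux

/-- Farkas' lemma over a linearly ordered field, for finitely many vectors indexed by `Fin n`. -/
theorem farkas_fin {K V : Type*} [Field K] [LinearOrder K] [IsStrictOrderedRing K] [AddCommGroup V]
    [Module K V] (n : ℕ) : ∀ (v : Fin n → V) (χ : V),
    (∃ α : Fin n → K, (∀ i, 0 ≤ α i) ∧ ∑ i, α i • v i = χ) ∨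
      ∃ f : Module.Dual K V, (∀ i, 0 ≤ f (v i)) ∧ f χ < 0 := by
  induction n with
  | zero =>
    intro v χ
    by_cases h : χ = 0
    · left
      exact ⟨fun _ => 0, fun _ => le_rfl, by simp [h]⟩
    · right
      obtain ⟨f, hf⟩ : ∃ f : Module.Dual K V, f χ ≠ 0 := by
        by_contra hcon
        push Not at hcon
        exact h ((Module.forall_dual_apply_eq_zero_iff K χ).1 hcon)
      refine ⟨(-(f χ)⁻¹) • f, fun i => i.elim0, ?_⟩
      simp [hf]
  | succ n ih =>
    intro v χ
    rcases ih (fun i => v i.succ) χ with ⟨α, hα, h⟩ | ⟨f, hf, hfχ⟩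
    · left
      refine ⟨Fin.cons 0 α, ?_, ?_⟩
      · intro i
        refine Fin.cases ?_ (fun i => ?_) i
        · simp
        · simpa using hα i
      · rw [Fin.sum_univ_succ]
        simpa using h
    · by_cases h0 : 0 ≤ f (v 0)
      · right
        refine ⟨f, fun i => ?_, hfχ⟩
        exact Fin.cases h0 (fun i => hf i) i
      · push Not at h0
        have h0' : f (v 0) ≠ 0 := h0.ne
        rcases ih (fun i => v i.succ - (f (v i.succ) / f (v 0)) • v 0)
          (χ - (f χ / f (v 0)) • v 0) with ⟨α, hα, h⟩ | ⟨g, hg, hgχ⟩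
        · left
          refine ⟨Fin.cons (f χ / f (v 0) - ∑ i, α i * (f (v i.succ) / f (v 0))) α, ?_, ?_⟩
          · intro i
            refine Fin.cases ?_ (fun i => ?_) i
            · simp only [Fin.cons_zero]
              have h1 : 0 ≤ f χ / f (v 0) := div_nonneg_of_nonpos hfχ.le h0.le
              have h2 : ∑ i, α i * (f (v i.succ) / f (v 0)) ≤ 0 := by
                refine Finset.sum_nonpos fun i _ => ?_
                exact mul_nonpos_of_nonneg_of_nonpos (hα i)
                  (div_nonpos_of_nonneg_of_nonpos (hf i) h0.le)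
              linarith
            · simpa using hα i
          · rw [Fin.sum_univ_succ]
            simp only [Fin.cons_zero, Fin.cons_succ]
            have h3 : ∑ i, α i • (v i.succ - (f (v i.succ) / f (v 0)) • v 0) =
                ∑ i, α i • v i.succ - (∑ i, α i * (f (v i.succ) / f (v 0))) • v 0 := by
              rw [Finset.sum_smul, ← Finset.sum_sub_distrib]
              refine Finset.sum_congr rfl fun i _ => ?_
              rw [smul_sub, mul_smul]
            rw [h3] at h
            have h4 : ∑ i, α i • v i.succ = χ - (f χ / f (v 0)) • v 0 +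
                (∑ i, α i * (f (v i.succ) / f (v 0))) • v 0 := by
              rw [← h]; abel
            rw [h4, sub_smul]
            abel
        · right
          refine ⟨g - (g (v 0) / f (v 0)) • f, fun i => ?_, ?_⟩
          · refine Fin.cases ?_ (fun i => ?_) i
            · simp only [LinearMap.sub_apply, LinearMap.smul_apply, smul_eq_mul]
              rw [div_mul_cancel₀ _ h0', sub_self]
            · have := hg i
              simp only [map_sub, map_smul, smul_eq_mul] at this
              simp only [LinearMap.sub_apply, LinearMap.smul_apply, smul_eq_mul]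
              have e : g (v 0) / f (v 0) * f (v i.succ) = f (v i.succ) / f (v 0) * g (v 0) := by
                ring
              rw [e]
              exact this
          · simp only [map_sub, map_smul, smul_eq_mul] at hgχ
            simp only [LinearMap.sub_apply, LinearMap.smul_apply, smul_eq_mul]
            have e : g (v 0) / f (v 0) * f χ = f χ / f (v 0) * g (v 0) := by
              ring
            rw [e]
            exact hgχ

theorem farkas_fintype {K V σ : Type*} [Field K] [LinearOrder K] [IsStrictOrderedRing K]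
    [AddCommGroup V] [Module K V] [Fintype σ] (v : σ → V) (χ : V) :
    (∃ α : σ → K, (∀ i, 0 ≤ α i) ∧ ∑ i, α i • v i = χ) ∨
      ∃ f : Module.Dual K V, (∀ i, 0 ≤ f (v i)) ∧ f χ < 0 := by
  let e := Fintype.equivFin σ
  rcases farkas_fin (K := K) (Fintype.card σ) (fun i => v (e.symm i)) χ with
    ⟨α, hα, h⟩ | ⟨f, hf, hfχ⟩
  · left
    refine ⟨fun i => α (e i), fun i => hα _, ?_⟩
    rw [← h]
    exact Fintype.sum_equiv e _ _ (fun i => by simp)
  · right
    refine ⟨f, fun i => ?_, hfχ⟩
    simpa using hf (e i)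

/-- common denominators -/
theorem exists_den {ι : Type*} [Fintype ι] (q : ι → ℚ) :
    ∃ (N : ℕ) (a : ι → ℤ), 1 ≤ N ∧ ∀ i, (a i : ℚ) = N * q i := by
  classical
  let N := ∏ j, (q j).den
  have hN : 1 ≤ N := Finset.prod_pos fun j _ => (q j).pos
  have hd : ∀ i, ∃ t : ℕ, N = (q i).den * t := fun i => Finset.dvd_prod_of_mem _ (Finset.mem_univ i)
  choose t ht using hd
  refine ⟨N, fun i => t i * (q i).num, hN, fun i => ?_⟩
  have h1 : ((q i).den : ℚ) ≠ 0 := by exact_mod_cast (q i).den_nz
  have h2 : ((q i).num : ℚ) = q i * (q i).den := (Rat.mul_den_eq_num (q i)).symm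
  push_cast
  rw [h2]
  have h3 : (N : ℚ) = (q i).den * t i := by exact_mod_cast ht i
  rw [h3]
  ring

end FarkasAux

open FarkasAux

variable {M : Type} [AddCommGroup M] [Module.Free ℤ M] [Module.Finite ℤ M]

/-- LP-1 Farkas. -/
theorem farkas {σ : Type} [Fintype σ] (v : σ → M) (χ : M) :
    (∃ (k : ℕ) (α : σ → ℕ), 1 ≤ k ∧ ∑ i, α i • v i = k • χ) ∨
      ∃ b : Module.Dual ℤ M, (∀ i, 0 ≤ b (v i)) ∧ b χ < 0 := by
  classical
  let ι := Module.Free.ChooseBasisIndex ℤ M
  let B : Module.Basis ι ℤ M := Module.Free.chooseBasis ℤ M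
  let φ : M →+ (ι → ℚ) :=
    { toFun := fun m i => ((B.repr m i : ℤ) : ℚ)
      map_zero' := by ext i; simp
      map_add' := by intro x y; ext i; simp }
  have hφ : Function.Injective φ := by
    intro x y h
    apply B.repr.injective
    ext i
    have := congrFun h i
    have h' : ((B.repr x i : ℤ) : ℚ) = ((B.repr y i : ℤ) : ℚ) := this
    exact_mod_cast h'
  rcases farkas_fintype (K := ℚ) (fun i => φ (v i)) (φ χ) with ⟨α, hα, h⟩ | ⟨f, hf, hfχ⟩
  · left
    obtain ⟨k, a, hk, ha⟩ := exists_den α
    have ha0 : ∀ i, 0 ≤ a i := by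
      intro i
      have : (0 : ℚ) ≤ a i := by
        rw [ha i]
        exact mul_nonneg (by positivity) (hα i)
      exact_mod_cast this
    refine ⟨k, fun i => (a i).toNat, hk, ?_⟩
    apply hφ
    rw [map_sum, map_nsmul]
    have h1 : ∀ i, φ ((a i).toNat • v i) = (k : ℚ) • (α i • φ (v i)) := by
      intro i
      rw [map_nsmul, smul_smul, ← ha i, ← Nat.cast_smul_eq_nsmul ℚ]
      congr 1
      have : (((a i).toNat : ℤ) : ℚ) = (a i : ℚ) := by rw [Int.toNat_of_nonneg (ha0 i)]
      exact_mod_cast this
    rw [Finset.sum_congr rfl fun i _ => h1 i, ← Finset.smul_sum, h, Nat.cast_smul_eq_nsmul]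
  · right
    obtain ⟨N, a, hN, ha⟩ := exists_den (fun i => f (Pi.single i 1))
    let b : Module.Dual ℤ M := B.constr ℤ a
    have hb : ∀ m, ((b m : ℤ) : ℚ) = N * f (φ m) := by
      intro m
      have h1 : b m = ∑ i, B.repr m i * a i := by
        simp [b, Module.Basis.constr_apply_fintype, Module.Basis.equivFun_apply]
      have h2 : φ m = ∑ i, ((B.repr m i : ℤ) : ℚ) • (Pi.single i (1 : ℚ) : ι → ℚ) := by
        ext j
        simp [φ, Finset.sum_apply, Pi.single_apply]
      rw [h1, h2, map_sum, Finset.mul_sum]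
      push_cast
      refine Finset.sum_congr rfl fun i _ => ?_
      rw [map_smul, ha i, smul_eq_mul]
      ring
    have hNpos : (0 : ℚ) < N := by exact_mod_cast hN
    refine ⟨b, fun i => ?_, ?_⟩
    · have : (0 : ℚ) ≤ b (v i) := by
        rw [hb]
        exact mul_nonneg hNpos.le (hf i)
      exact_mod_cast this
    · have : ((b χ : ℤ) : ℚ) < 0 := by
        rw [hb]
        exact mul_neg_of_pos_of_neg hNpos hfχ
      exact_mod_cast this

/-- LP-2 Farkas in the dual. -/
theorem farkas_dual {σ : Type} [Fintype σ] (e : σ → Module.Dual ℤ M) (f : Module.Dual ℤ M) :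
    (∃ (k : ℕ) (α : σ → ℕ), 1 ≤ k ∧ ∑ i, α i • e i = k • f) ∨
      ∃ m : M, (∀ i, 0 ≤ e i m) ∧ f m < 0 := by
  rcases farkas e f with h | ⟨b, hb, hbf⟩
  · exact Or.inl h
  · right
    obtain ⟨m, rfl⟩ := (Module.evalEquiv ℤ M).surjective b
    exact ⟨m, fun i => by simpa using hb i, by simpa using hbf⟩

end Pool.Agent.H6.Abund
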