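import Mathlib

/-!
# Toric presentations of projective varieties, line bundles and their sections

`M` is the character group of a torus `T` acting on `ℂ^ι` with weights `w i ∈ M`, and
`X ⊆ ℂ^ι` is the preimage of a projective variety `X / T`.  A character `χ` defines a line bundle
`O(χ)` on `X / T`, whose sections are the regular functions on `X` of weight `χ`.
-/

set_option autoImplicit false

open MvPolynomial

namespace Pool.Agent.H6.Abund

variable {M ι κ : Type} [AddCommGroup M]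

/-- The one-parameter subgroup `b` of `T` has nonnegative weights on the nonzero coordinates
of `x`, i.e. `lim b(t) x` exists for `t → 0`. -/
def NN (w : ι → M) (x : ι → ℂ) (b : Module.Dual ℤ M) : Prop :=
  ∀ i, x i ≠ 0 → 0 ≤ b (w i)

/-- The value of the monomial with exponents `α` at `x`. -/
noncomputable def mon (x : ι → ℂ) (α : ι →₀ ℕ) : ℂ := α.prod fun i k => x i ^ k

/-- For some `k ≥ 1` there is a monomial of degree `k χ` that does not vanish at `x`. -/
def Semistable (w : ι → M) (χ : M) (x : ι → ℂ) : Prop :=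
  ∃ (k : ℕ) (α : ι →₀ ℕ), 1 ≤ k ∧ Finsupp.weight w α = k • χ ∧ mon x α ≠ 0

/-- `x` lies in the closure of `Y` for the topology defined by homogeneous polynomials. -/
def InClosure (w : ι → M) (Y : Set (ι → ℂ)) (x : ι → ℂ) : Prop :=
  ∀ (χ : M) (p : MvPolynomial ι ℂ), IsWeightedHomogeneous w p χ → (∀ y ∈ Y, eval y p = 0) →
    eval x p = 0

/-- `s` is a section over `Y` of the line bundle `O(χ)`: locally a quotient of homogeneous
polynomials whose degrees differ by `χ`. -/
def IsSection (w : ι → M) (Y : Set (ι → ℂ)) (χ : M) (s : (ι → ℂ) → ℂ) : Prop :=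
  ∀ x ∈ Y, ∃ (β : M) (A B : MvPolynomial ι ℂ), IsWeightedHomogeneous w A (β + χ) ∧
    IsWeightedHomogeneous w B β ∧ eval x B ≠ 0 ∧ ∀ y ∈ Y, s y * eval y B = eval y A

/-- The line bundle `O(χ)` is semiample on `Y`. -/
def Semiample (w : ι → M) (Y : Set (ι → ℂ)) (χ : M) : Prop :=
  ∀ x ∈ Y, ∃ (k : ℕ) (s : (ι → ℂ) → ℂ), 1 ≤ k ∧ IsSection w Y (k • χ) s ∧ s x ≠ 0

/-- The line bundle `O(χ)` is nef on `Y`: for the ample line bundle `O(η)` and every `n ≥ 1` the
line bundle `O(n χ + η)` is semiample. -/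
def Nef (w : ι → M) (Y : Set (ι → ℂ)) (η χ : M) : Prop :=
  ∀ n : ℕ, 1 ≤ n → Semiample w Y (n • χ + η)

/-- A presentation of a smooth projective variety `X / T` as (an open and closed part of) a
complete intersection `{G_j = 0}` in the toric variety with Cox coordinates `x_i` of degrees
`w i ∈ M`, with ample class `η`. -/
structure IsPres (w : ι → M) (g : κ → M) (G : κ → MvPolynomial ι ℂ) (η : M)
    (X : Set (ι → ℂ)) : Prop where
  homog : ∀ j, IsWeightedHomogeneous w (G j) (g j)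
  zero : ∀ x ∈ X, ∀ j, eval x (G j) = 0
  isOpen : ∀ x ∈ X, ∃ h : MvPolynomial ι ℂ, eval x h ≠ 0 ∧
    ∀ y, (∀ j, eval y (G j) = 0) → eval y h ≠ 0 → y ∈ X
  closed : ∀ x, Semistable w η x → InClosure w X x → x ∈ X
  ample : ∀ x ∈ X, ∀ b, NN w x b → b ≠ 0 → 0 < b η
  free : ∀ x ∈ X, Submodule.span ℤ (w '' {i | x i ≠ 0}) = ⊤
  smooth : ∀ x ∈ X, LinearIndependent ℂ fun j => fun i => eval x (pderiv i (G j))
  irred : ∀ p q : MvPolynomial ι ℂ, (∀ x ∈ X, eval x (p * q) = 0) →
    (∀ x ∈ X, eval x p = 0) ∨ ∀ x ∈ X, eval x q = 0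
  pos : ∃ β : Module.Dual ℤ M, ∀ i, 0 < β (w i)

/-! ### Basic lemmas -/

lemma eval_monomial_one (x : ι → ℂ) (α : ι →₀ ℕ) : eval x (monomial α (1 : ℂ)) = mon x α := by
  simp [mon, eval_monomial]

lemma mon_zero (x : ι → ℂ) : mon x 0 = 1 := by simp [mon]

lemma mon_add (x : ι → ℂ) (α β : ι →₀ ℕ) : mon x (α + β) = mon x α * mon x β := by
  classical
  rw [← eval_monomial_one, ← eval_monomial_one, ← eval_monomial_one, ← map_mul, monomial_mul,
    one_mul]

lemma mon_nsmul (x : ι → ℂ) (k : ℕ) (α : ι →₀ ℕ) : mon x (k • α) = mon x α ^ k := by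
  induction k with
  | zero => simp [mon_zero]
  | succ k ih => rw [succ_nsmul, mon_add, ih, pow_succ]

lemma mon_ne_zero {x : ι → ℂ} {α : ι →₀ ℕ} : mon x α ≠ 0 ↔ ∀ i, α i ≠ 0 → x i ≠ 0 := by
  unfold mon Finsupp.prod
  rw [Finset.prod_ne_zero_iff]
  constructor
  · intro h i hi
    have := h i (Finsupp.mem_support_iff.mpr hi)
    exact fun h0 => this (by simp [h0, zero_pow hi])
  · intro h i hi
    exact pow_ne_zero _ (h i (Finsupp.mem_support_iff.mp hi))

lemma mon_single (x : ι → ℂ) (i : ι) (k : ℕ) : mon x (Finsupp.single i k) = x i ^ k := by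
  simp [mon]

lemma isWeightedHomogeneous_mon (w : ι → M) (α : ι →₀ ℕ) :
    IsWeightedHomogeneous w (monomial α (1 : ℂ)) (Finsupp.weight w α) :=
  isWeightedHomogeneous_monomial w α 1 rfl

lemma NN.weight_nonneg {w : ι → M} {x : ι → ℂ} {b : Module.Dual ℤ M} (hb : NN w x b)
    {α : ι →₀ ℕ} (hα : mon x α ≠ 0) : 0 ≤ b (Finsupp.weight w α) := by
  rw [Finsupp.weight_apply, Finsupp.sum, map_sum]
  refine Finset.sum_nonneg fun i hi => ?_
  rw [map_nsmul]
  exact nsmul_nonneg (hb i (mon_ne_zero.mp hα i (Finsupp.mem_support_iff.mp hi))) _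

end Pool.Agent.H6.Abund
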